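import Mathlib
import Pool.Agent.H45.XR.Defs
import Pool.Agent.H7.XR.A1
import Pool.Agent.H91.XR.B1

set_option autoImplicit false

open MeasureTheory Set Filter Topology
open scoped Real ENNReal

namespace Pool.Agent.H45.XR

lemma b6_polar (z : ℂ) (a : ℝ) : ∃ θ ∈ Ico a (a + 2 * π), ∃ s : ℝ, 0 ≤ s ∧ z = s * e θ := by
  have hper : Function.Periodic e (2 * π) := fun x => e_add_two_pi x
  refine ⟨toIcoMod Real.two_pi_pos a (Complex.arg z), toIcoMod_mem_Ico _ _ _, ‖z‖,
    norm_nonneg _, ?_⟩
  have h1 : e (toIcoMod Real.two_pi_pos a (Complex.arg z)) = e (Complex.arg z) := by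
    rw [toIcoMod]
    exact hper.sub_zsmul_eq _
  rw [h1, e]
  exact (Complex.norm_mul_exp_arg_mul_I z).symm

lemma b6_identity (α θ β : ℝ) :
    (Real.sin (β - θ) : ℂ) * e α + (Real.sin (θ - α) : ℂ) * e β = (Real.sin (β - α) : ℂ) * e θ := by
  apply Complex.ext
  · simp only [Complex.add_re, Complex.mul_re, Complex.ofReal_re, Complex.ofReal_im, e_re, e_im,
      Real.sin_sub]
    ring
  · simp only [Complex.add_im, Complex.mul_im, Complex.ofReal_re, Complex.ofReal_im, e_re, e_im,
      Real.sin_sub]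
    ring

/-- the segment from `p e α` to `q e β` crosses the ray of angle `θ` inside `C`. -/
lemma b6_K {C : Set ℂ} (hC : Body C) {α θ β p q : ℝ} (h1 : α < θ) (h2 : θ < β) (h3 : β - α ≤ π)
    (hp : 0 < p) (hp' : p ≤ rad C α) (hq : 0 < q) (hq' : q ≤ rad C β) :
    p * q * Real.sin (β - α) ≤
      rad C θ * (p * Real.sin (θ - α) + q * Real.sin (β - θ)) := by
  have s1 : 0 < Real.sin (θ - α) := Real.sin_pos_of_pos_of_lt_pi (by linarith) (by linarith)
  have s2 : 0 < Real.sin (β - θ) := Real.sin_pos_of_pos_of_lt_pi (by linarith) (by linarith)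
  have s3 : 0 ≤ Real.sin (β - α) := Real.sin_nonneg_of_nonneg_of_le_pi (by linarith) (by linarith)
  set D : ℝ := p * Real.sin (θ - α) + q * Real.sin (β - θ) with hD
  have hDpos : 0 < D := by positivity
  have hpC : (p : ℂ) * e α ∈ C := (mem_iff_le_rad hC α hp.le).2 hp'
  have hqC : (q : ℂ) * e β ∈ C := (mem_iff_le_rad hC β hq.le).2 hq'
  have hm := hC.conv hpC hqC (a := q * Real.sin (β - θ) / D) (b := p * Real.sin (θ - α) / D)
    (by positivity) (by positivity) (by rw [← add_div, div_eq_one_iff_eq hDpos.ne', hD]; ring)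
  have he : (q * Real.sin (β - θ) / D) • ((p : ℂ) * e α) +
      (p * Real.sin (θ - α) / D) • ((q : ℂ) * e β) =
      ((p * q * Real.sin (β - α) / D : ℝ) : ℂ) * e θ := by
    have h := b6_identity α θ β
    rw [Complex.real_smul, Complex.real_smul]
    push_cast
    have hD' : (D : ℂ) ≠ 0 := by exact_mod_cast hDpos.ne'
    push_cast at h
    field_simp
    linear_combination (p : ℂ) * q * h
  rw [he, mem_iff_le_rad hC θ (by positivity), div_le_iff₀ hDpos] at hm
  exact hm

/-- sign of the area functional on the points between the two curves. -/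
lemma b6_sign {C C' : Set ℂ} (hC : Body C) (hC' : Body C') {a b θ s : ℝ}
    (hba : b < a + 2 * π) (ha : rad C a = rad C' a) (hb : rad C b = rad C' b)
    (h1 : a < θ) (h2 : θ < b) (hs : rad C θ < s) (hs' : s ≤ rad C' θ) :
    rad C a * rad C b * Real.sin (b - a) - rad C a * s * Real.sin (θ - a)
      - rad C b * s * Real.sin (b - θ) ≤ 0 := by
  have hpa := rad_pos hC a
  have hpb := rad_pos hC b
  have hpθ := rad_pos hC θ
  have hs0 : 0 < s := hpθ.trans hs
  have hpi := Real.pi_pos
  by_cases hA : b - a ≤ π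
  · have s1 : 0 < Real.sin (θ - a) := Real.sin_pos_of_pos_of_lt_pi (by linarith) (by linarith)
    have s2 : 0 < Real.sin (b - θ) := Real.sin_pos_of_pos_of_lt_pi (by linarith) (by linarith)
    have hk := b6_K hC h1 h2 hA hpa le_rfl hpb le_rfl
    have h3 : rad C θ * (rad C a * Real.sin (θ - a) + rad C b * Real.sin (b - θ)) ≤
        s * (rad C a * Real.sin (θ - a) + rad C b * Real.sin (b - θ)) :=
      mul_le_mul_of_nonneg_right hs.le (by positivity)
    nlinarith
  · push Not at hA
    by_cases hB : π < θ - a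
    · have hk := b6_K hC' (α := θ) (θ := b) (β := a + 2 * π) (p := s) (q := rad C a) h2 hba
        (by linarith) hs0 hs' hpa (by rw [rad_periodic, ha])
      rw [← hb] at hk
      have e1 : Real.sin (a + 2 * π - θ) = - Real.sin (θ - a) := by
        rw [show a + 2 * π - θ = -(θ - a) + 2 * π by ring, Real.sin_add_two_pi, Real.sin_neg]
      have e2 : Real.sin (a + 2 * π - b) = - Real.sin (b - a) := by
        rw [show a + 2 * π - b = -(b - a) + 2 * π by ring, Real.sin_add_two_pi, Real.sin_neg]
      rw [e1, e2] at hk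
      linarith
    · by_cases hB2 : π < b - θ
      · have hk := b6_K hC' (α := b - 2 * π) (θ := a) (β := θ) (p := rad C b) (q := s)
          (by linarith) h1 (by linarith) hpb
          (by
            have := rad_periodic C' (b - 2 * π)
            rw [show b - 2 * π + 2 * π = b by ring] at this
            rw [← this, hb]) hs0 hs'
        rw [← ha] at hk
        have e1 : Real.sin (θ - (b - 2 * π)) = - Real.sin (b - θ) := by
          rw [show θ - (b - 2 * π) = -(b - θ) + 2 * π by ring, Real.sin_add_two_pi, Real.sin_neg]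
        have e2 : Real.sin (a - (b - 2 * π)) = - Real.sin (b - a) := by
          rw [show a - (b - 2 * π) = -(b - a) + 2 * π by ring, Real.sin_add_two_pi, Real.sin_neg]
        rw [e1, e2] at hk
        linarith
      · push Not at hB hB2
        have s1 : 0 ≤ Real.sin (θ - a) :=
          Real.sin_nonneg_of_nonneg_of_le_pi (by linarith) hB
        have s2 : 0 ≤ Real.sin (b - θ) :=
          Real.sin_nonneg_of_nonneg_of_le_pi (by linarith) hB2
        have s3 : Real.sin (b - a) ≤ 0 := by
          rw [show b - a = -(π - (b - a)) + π by ring, Real.sin_add_pi, Real.sin_neg, neg_neg]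
          exact Real.sin_nonpos_of_nonpos_of_neg_pi_le (by linarith) (by linarith)
        have t1 : 0 ≤ rad C a * s * Real.sin (θ - a) := by positivity
        have t2 : 0 ≤ rad C b * s * Real.sin (b - θ) := by positivity
        have t3 : rad C a * rad C b * Real.sin (b - a) ≤ 0 :=
          mul_nonpos_of_nonneg_of_nonpos (by positivity) s3
        linarith

/-- the affine functional vanishing on the line through the two common points. -/
noncomputable def b6L (P Q : ℂ) : ℂ →L[ℝ] ℝ :=
  (Q - P).re • Complex.imCLM - (Q - P).im • Complex.reCLM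

lemma b6L_apply (P Q z : ℂ) : b6L P Q z = (Q - P).re * z.im - (Q - P).im * z.re := by
  simp [b6L]

lemma b6L_pt (C : Set ℂ) (a b θ s : ℝ) :
    b6L (pt C a) (pt C b) ((s : ℂ) * e θ) - b6L (pt C a) (pt C b) (pt C a) =
      rad C a * rad C b * Real.sin (b - a) - rad C a * s * Real.sin (θ - a)
      - rad C b * s * Real.sin (b - θ) := by
  simp only [b6L_apply, pt, Complex.sub_re, Complex.sub_im, Complex.mul_re, Complex.mul_im,
    Complex.ofReal_re, Complex.ofReal_im, e_re, e_im, Real.sin_sub]
  ring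

lemma b6_nonempty {C C' : Set ℂ} (hC : Body C) (hC' : Body C') {θ : ℝ} (h : rad C θ < rad C' θ) :
    (interior C' \ C).Nonempty := by
  have h0 := rad_pos hC θ
  refine ⟨((rad C θ + rad C' θ) / 2 : ℝ) * e θ, ?_, ?_⟩
  · rw [mem_interior_iff_lt_rad hC' θ (by linarith)]
    linarith
  · rw [mem_iff_le_rad hC θ (by linarith)]
    linarith

lemma b6_open {C C' : Set ℂ} (hC : Body C) : IsOpen (interior C' \ C) :=
  isOpen_interior.sdiff hC.cpt.isClosed

/-- one body strictly larger: volumes differ. -/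
lemma b6_vol {C C' : Set ℂ} (hC : Body C) (hC' : Body C') (hV : volume C = volume C')
    (h : ∀ θ, rad C θ ≤ rad C' θ) (θ₀ : ℝ) (h₀ : rad C θ₀ < rad C' θ₀) : False := by
  have hsub : C ⊆ C' := by
    intro z hz
    obtain ⟨θ, -, s, hs, rfl⟩ := b6_polar z 0
    rw [mem_iff_le_rad hC' θ hs]
    exact ((mem_iff_le_rad hC θ hs).1 hz).trans (h θ)
  have h1 : volume (C' \ C) = 0 := by
    rw [measure_sdiff hsub hC.cpt.measurableSet.nullMeasurableSet hC.cpt.measure_lt_top.ne, hV,
      tsub_self]
  have h2 : 0 < volume (interior C' \ C) :=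
    (b6_open hC).measure_pos volume (b6_nonempty hC hC' h₀)
  have h3 : volume (interior C' \ C) ≤ volume (C' \ C) :=
    measure_mono (sdiff_subset_sdiff_left interior_subset)
  rw [h1] at h3
  exact absurd (h2.trans_le h3) (lt_irrefl _)

/-- the case of opposite signs. -/
lemma b6_opp {C C' : Set ℂ} (hC : Body C) (hC' : Body C') (hV : volume C = volume C')
    (hM : ∫ z in C, z = ∫ z in C', z) {a b : ℝ} (hab : a < b)
    (hba : b < a + 2 * π) (ha : rad C a = rad C' a) (hb : rad C b = rad C' b)
    (h1 : ∀ θ ∈ Ioo a b, rad C θ < rad C' θ) (h2 : ∀ θ ∈ Ioo b (a + 2 * π), rad C' θ < rad C θ) :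
    False := by
  set P := pt C a with hP
  set Q := pt C b with hQ
  set l : ℂ → ℝ := fun z => b6L P Q z - b6L P Q P with hl
  have hlc : Continuous l := by
    rw [hl]; exact (b6L P Q).continuous.sub continuous_const
  have hint : ∀ S : Set ℂ, IsCompact S → IntegrableOn l S volume := fun S hS =>
    hlc.continuousOn.integrableOn_compact hS
  have hidint : ∀ S : Set ℂ, IsCompact S → IntegrableOn (fun z : ℂ => z) S volume := fun S hS =>
    continuous_id.continuousOn.integrableOn_compact hS
  have hval : ∀ S : Set ℂ, IsCompact S →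
      ∫ z in S, l z = b6L P Q (∫ z in S, z) - (volume S).toReal * b6L P Q P := by
    intro S hS
    rw [hl]
    rw [integral_sub ((b6L P Q).integrable_comp (hidint S hS))
      (integrableOn_const (hs := hS.measure_lt_top.ne))]
    rw [setIntegral_const, (b6L P Q).integral_comp_comm (hidint S hS)]
    rfl
  have hEq : ∫ z in C, l z = ∫ z in C', l z := by
    rw [hval C hC.cpt, hval C' hC'.cpt, hM, hV]
  have hd1 := integral_inter_add_sdiff (μ := volume) (f := l) (s := C) (t := C')
    hC'.cpt.measurableSet (hint C hC.cpt)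
  have hd2 := integral_inter_add_sdiff (μ := volume) (f := l) (s := C') (t := C)
    hC.cpt.measurableSet (hint C' hC'.cpt)
  rw [inter_comm] at hd2
  have hdiff : ∫ z in C \ C', l z = ∫ z in C' \ C, l z := by linarith
  -- signs
  have hs1 : ∀ z ∈ C' \ C, l z ≤ 0 := by
    rintro z ⟨hz', hz⟩
    obtain ⟨θ, hθ, s, hs, rfl⟩ := b6_polar z a
    rw [mem_iff_le_rad hC' θ hs] at hz'
    rw [mem_iff_le_rad hC θ hs, not_le] at hz
    have hlt : rad C θ < rad C' θ := hz.trans_le hz'
    have hθa : a < θ := by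
      rcases eq_or_lt_of_le hθ.1 with h | h
      · rw [← h, ha] at hlt
        exact absurd hlt (lt_irrefl _)
      · exact h
    have hθb : θ < b := by
      by_contra hcon
      push Not at hcon
      rcases eq_or_lt_of_le hcon with h | h
      · rw [← h, hb] at hlt
        exact absurd hlt (lt_irrefl _)
      · exact absurd (h2 θ ⟨h, hθ.2⟩) (not_lt.2 hlt.le)
    have := b6_sign hC hC' hba ha hb hθa hθb hz hz'
    rw [← b6L_pt] at this
    exact this
  have hs2 : ∀ z ∈ C \ C', 0 ≤ l z := by
    rintro z ⟨hz, hz'⟩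
    obtain ⟨θ, hθ, s, hs, rfl⟩ := b6_polar z a
    rw [mem_iff_le_rad hC' θ hs, not_le] at hz'
    rw [mem_iff_le_rad hC θ hs] at hz
    have hlt : rad C' θ < rad C θ := hz'.trans_le hz
    have hθa : a < θ := by
      rcases eq_or_lt_of_le hθ.1 with h | h
      · rw [← h, ha] at hlt
        exact absurd hlt (lt_irrefl _)
      · exact h
    have hθb : b < θ := by
      by_contra hcon
      push Not at hcon
      rcases eq_or_lt_of_le hcon with h | h
      · rw [h, hb] at hlt
        exact absurd hlt (lt_irrefl _)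
      · exact absurd (h1 θ ⟨hθa, h⟩) (not_lt.2 hlt.le)
    have := b6_sign hC' hC (a := b) (b := a + 2 * π) (θ := θ) (s := s) (by linarith) hb.symm
      (by rw [rad_periodic, rad_periodic, ha]) hθb hθ.2 hz' hz
    rw [rad_periodic, ← ha, ← hb] at this
    have e1 : Real.sin (a + 2 * π - θ) = - Real.sin (θ - a) := by
      rw [show a + 2 * π - θ = -(θ - a) + 2 * π by ring, Real.sin_add_two_pi, Real.sin_neg]
    have e2 : Real.sin (a + 2 * π - b) = - Real.sin (b - a) := by
      rw [show a + 2 * π - b = -(b - a) + 2 * π by ring, Real.sin_add_two_pi, Real.sin_neg]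
    have e3 : Real.sin (θ - b) = - Real.sin (b - θ) := by
      rw [← Real.sin_neg]; congr 1; ring
    rw [e1, e2, e3] at this
    have h5 := b6L_pt C a b θ s
    show 0 ≤ b6L P Q ((s : ℂ) * e θ) - b6L P Q P
    rw [h5]
    linarith
  -- strictness on the open set
  have hPQ : P ≠ Q := by
    intro h
    have h3 : b6L P Q Q = b6L P Q P := by rw [h]
    rw [hP, hQ, pt, pt] at h
    have h4 := congrArg (fun z => ‖z‖) h
    simp only [norm_mul, norm_e, mul_one, Complex.norm_real, Real.norm_eq_abs,
      abs_of_pos (rad_pos hC _)] at h4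
    have h5 : e a = e b := by
      rw [h4] at h
      have : (rad C b : ℂ) ≠ 0 := by exact_mod_cast (rad_pos hC b).ne'
      exact mul_left_cancel₀ this h
    rw [e, e, Complex.exp_eq_exp_iff_exists_int] at h5
    obtain ⟨n, hn⟩ := h5
    have hn' : a = b + n * (2 * π) := by
      have := congrArg Complex.im hn
      simpa using this
    have hn1 : n < 0 := by
      by_contra hc
      push Not at hc
      have : (0 : ℝ) ≤ n := by exact_mod_cast hc
      nlinarith [Real.pi_pos]
    have hn2 : (n : ℝ) ≤ -1 := by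
      have : n ≤ -1 := by omega
      exact_mod_cast this
    nlinarith [Real.pi_pos]
  have hmid : (a + b) / 2 ∈ Ioo a b := ⟨by linarith, by linarith⟩
  have hUne := b6_nonempty hC hC' (h1 _ hmid)
  have hUo : IsOpen (interior C' \ C) := b6_open hC
  have hUsub : interior C' \ C ⊆ C' \ C := sdiff_subset_sdiff_left interior_subset
  have hstrict : ∀ z ∈ interior C' \ C, l z < 0 := by
    intro z hz
    refine lt_of_le_of_ne (hs1 z (hUsub hz)) ?_
    intro h0
    have hc : Continuous (fun t : ℝ => z + (t : ℂ) * (Complex.I * (Q - P))) := by fun_prop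
    have hz0 : (fun t : ℝ => z + (t : ℂ) * (Complex.I * (Q - P))) 0 ∈ interior C' \ C := by
      simpa using hz
    have hev : ∀ᶠ t : ℝ in 𝓝 (0 : ℝ),
        z + (t : ℂ) * (Complex.I * (Q - P)) ∈ interior C' \ C :=
      hc.continuousAt.eventually (hUo.mem_nhds hz0)
    have hev2 : ∀ᶠ t : ℝ in 𝓝[>] (0 : ℝ),
        z + (t : ℂ) * (Complex.I * (Q - P)) ∈ interior C' \ C :=
      hev.filter_mono nhdsWithin_le_nhds
    obtain ⟨t, ht, ht0⟩ := (hev2.and self_mem_nhdsWithin).exists
    have ht0 : 0 < t := ht0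
    have h6 := hs1 _ (hUsub ht)
    have h7 : l (z + (t : ℂ) * (Complex.I * (Q - P))) =
        l z + t * ((Q - P).re ^ 2 + (Q - P).im ^ 2) := by
      simp only [hl, b6L_apply, Complex.add_im, Complex.add_re, Complex.mul_re, Complex.mul_im,
        Complex.I_re, Complex.I_im, Complex.ofReal_re, Complex.ofReal_im]
      ring
    rw [h7, h0, zero_add] at h6
    have h8 : 0 < (Q - P).re ^ 2 + (Q - P).im ^ 2 := by
      have : Q - P ≠ 0 := sub_ne_zero.2 hPQ.symm
      have h9 := Complex.normSq_pos.2 this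
      rw [Complex.normSq_apply] at h9
      nlinarith
    have : 0 < t * ((Q - P).re ^ 2 + (Q - P).im ^ 2) := mul_pos ht0 h8
    linarith
  have hmeas : MeasurableSet (C' \ C) := hC'.cpt.measurableSet.diff hC.cpt.measurableSet
  have hmeas2 : MeasurableSet (C \ C') := hC.cpt.measurableSet.diff hC'.cpt.measurableSet
  have hI1 : 0 ≤ ∫ z in C \ C', l z := setIntegral_nonneg hmeas2 hs2
  have hI2 : ∫ z in C' \ C, l z < 0 := by
    have h7 : 0 < ∫ z in C' \ C, (- l z) := by
      rw [setIntegral_pos_iff_support_of_nonneg_ae]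
      · refine lt_of_lt_of_le (hUo.measure_pos volume hUne) (measure_mono ?_)
        intro z hz
        refine ⟨?_, hUsub hz⟩
        have := hstrict z hz
        simp only [Function.mem_support, ne_eq, neg_eq_zero]
        exact this.ne
      · refine (ae_restrict_iff' hmeas).2 (Eventually.of_forall ?_)
        intro z hz
        have := hs1 z hz
        simp only [Pi.zero_apply]
        linarith
      · exact ((hint C' hC'.cpt).mono_set sdiff_subset).neg
    rw [integral_neg] at h7
    linarith
  linarith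

lemma b6_dichotomy {C C' : Set ℂ} (hC : Body C) (hC' : Body C') {a b : ℝ}
    (h1 : Ioo a b ∩ EE C C' = ∅) :
    (∀ θ ∈ Ioo a b, rad C θ < rad C' θ) ∨ (∀ θ ∈ Ioo a b, rad C' θ < rad C θ) := by
  obtain ⟨L, hL⟩ := rad_lipschitz hC
  obtain ⟨L', hL'⟩ := rad_lipschitz hC'
  by_contra hcon
  push Not at hcon
  obtain ⟨⟨x, hx, hx'⟩, y, hy, hy'⟩ := hcon
  have hc : ContinuousOn (fun θ => rad C' θ - rad C θ) (Ioo a b) :=
    (hL'.continuous.sub hL.continuous).continuousOn
  have h2 := isPreconnected_Ioo.intermediate_value hx hy hc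
  obtain ⟨θ, hθ, h3⟩ := h2 (show (0 : ℝ) ∈ Icc (rad C' x - rad C x) (rad C' y - rad C y) from
    ⟨by linarith, by linarith⟩)
  have h4 : θ ∈ Ioo a b ∩ EE C C' := ⟨hθ, by
    have : rad C' θ - rad C θ = 0 := h3
    show rad C θ = rad C' θ
    linarith⟩
  rw [h1] at h4
  exact h4

lemma b6_all {C C' : Set ℂ} {a b : ℝ} (ha : rad C a = rad C' a) (hb : rad C b = rad C' b)
    (h1 : ∀ θ ∈ Ioo a b, rad C θ < rad C' θ) (h2 : ∀ θ ∈ Ioo b (a + 2 * π), rad C θ < rad C' θ)
    (θ : ℝ) : rad C θ ≤ rad C' θ := by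
  have hper : Function.Periodic (rad C) (2 * π) := fun x => rad_periodic C x
  have hper' : Function.Periodic (rad C') (2 * π) := fun x => rad_periodic C' x
  have e1 : rad C (toIcoMod Real.two_pi_pos a θ) = rad C θ := by
    rw [toIcoMod]; exact hper.sub_zsmul_eq _
  have e2 : rad C' (toIcoMod Real.two_pi_pos a θ) = rad C' θ := by
    rw [toIcoMod]; exact hper'.sub_zsmul_eq _
  rw [← e1, ← e2]
  have hm := toIcoMod_mem_Ico Real.two_pi_pos a θ
  generalize toIcoMod Real.two_pi_pos a θ = η at hm
  rcases eq_or_lt_of_le hm.1 with h | h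
  · rw [← h, ha]
  · rcases lt_trichotomy η b with h' | h' | h'
    · exact (h1 η ⟨h, h'⟩).le
    · rw [h', hb]
    · exact (h2 η ⟨h', hm.2⟩).le

theorem two_points {C C' : Set ℂ} (hC : Body C) (hC' : Body C') {φ ψ : ℝ} (hφ : φ < ψ)
    (hψ : ψ < φ + π) (hX : SameX C C' φ) (hX' : SameX C C' ψ) {a b : ℝ} (hab : a < b)
    (hba : b < a + 2 * π) (ha : a ∈ EE C C') (hb : b ∈ EE C C') (h1 : Ioo a b ∩ EE C C' = ∅)
    (h2 : Ioo b (a + 2 * π) ∩ EE C C' = ∅) : False := by
  have hV := sameX_volume hC.cpt hC'.cpt hX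
  have hM := sameX_integral hC.cpt hC'.cpt hφ hψ hX hX'
  have ha' : rad C a = rad C' a := ha
  have hb' : rad C b = rad C' b := hb
  have hmid : (a + b) / 2 ∈ Ioo a b := ⟨by linarith, by linarith⟩
  rcases b6_dichotomy hC hC' h1 with h3 | h3 <;> rcases b6_dichotomy hC hC' h2 with h4 | h4
  · exact b6_vol hC hC' hV (b6_all ha' hb' h3 h4) _ (h3 _ hmid)
  · exact b6_opp hC hC' hV hM hab hba ha' hb' h3 h4
  · exact b6_opp hC' hC hV.symm hM.symm hab hba ha'.symm hb'.symm h3 h4
  · exact b6_vol hC' hC hV.symm (b6_all ha'.symm hb'.symm h3 h4) _ (h3 _ hmid)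

end Pool.Agent.H45.XR
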