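import Mathlib
import Pool.Agent.H45.XR.Defs

set_option autoImplicit false

open MeasureTheory Set Filter Topology
open scoped Real ENNReal

namespace Pool.Agent.H45.XR

theorem sec_convex {K : Set (ℂ × ℝ)} (hK : Body3 K) (h : ℝ) : Convex ℝ (sec K h) := by
  intro x hx y hy a b ha hb hab
  have h1 := hK.conv hx hy ha hb hab
  have h2 : a • (x, h) + b • (y, h) = (a • x + b • y, h) := by
    ext <;> simp
    rw [← add_mul, hab, one_mul]
  rw [h2] at h1
  exact h1

theorem sec_compact {K : Set (ℂ × ℝ)} (hK : Body3 K) (h : ℝ) : IsCompact (sec K h) := by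
  have h1 : IsClosed (sec K h) := by
    have : Continuous (fun z : ℂ => (z, h)) := by fun_prop
    exact hK.cpt.isClosed.preimage this
  refine (hK.cpt.image continuous_fst).of_isClosed_subset h1 ?_
  intro z hz
  exact ⟨(z, h), hz, rfl⟩

theorem interior_sec {K : Set (ℂ × ℝ)} (hK : Body3 K) {h : ℝ} (hh : h ∈ Hts K) :
    interior (sec K h) = {z | (z, h) ∈ interior K} := by
  have hcont : Continuous (fun z : ℂ => (z, h)) := by fun_prop
  apply Subset.antisymm
  · intro z hz
    obtain ⟨z0, hz0⟩ := hh
    have hf : Continuous (fun t : ℝ => z + (t : ℂ) * (z - z0)) := by fun_prop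
    have h0 : (fun t : ℝ => z + (t : ℂ) * (z - z0)) 0 ∈ interior (sec K h) := by
      simpa using hz
    have h1 : ∀ᶠ t : ℝ in 𝓝 (0 : ℝ), z + (t : ℂ) * (z - z0) ∈ interior (sec K h) :=
      hf.continuousAt.eventually (isOpen_interior.mem_nhds h0)
    have h2 : ∀ᶠ t : ℝ in 𝓝[>] (0 : ℝ), z + (t : ℂ) * (z - z0) ∈ interior (sec K h) :=
      h1.filter_mono nhdsWithin_le_nhds
    obtain ⟨t, ht, ht0⟩ := (h2.and self_mem_nhdsWithin).exists
    have ht0 : 0 < t := ht0
    have hz1' : z + (t : ℂ) * (z - z0) ∈ sec K h := interior_subset ht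
    have hz1 : (z + (t : ℂ) * (z - z0), h) ∈ K := hz1'
    have h3 := hK.conv.combo_interior_self_mem_interior hz0 hz1
      (a := t / (1 + t)) (b := 1 / (1 + t)) (by positivity) (by positivity) (by field_simp; ring)
    have h4 : (t / (1 + t)) • (z0, h) + (1 / (1 + t)) • (z + (t : ℂ) * (z - z0), h) = (z, h) := by
      have ht1 : (1 + (t : ℂ)) ≠ 0 := by
        have : (1 + t : ℝ) ≠ 0 := by positivity
        exact_mod_cast this
      ext1
      · simp only [Prod.fst_add, Prod.smul_fst, Complex.real_smul]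
        push_cast
        field_simp
        ring
      · simp only [Prod.snd_add, Prod.smul_snd, smul_eq_mul]
        field_simp
        ring
    rw [h4] at h3
    exact h3
  · refine interior_maximal ?_ (isOpen_interior.preimage hcont)
    intro z hz
    have hz' : (z, h) ∈ interior K := hz
    have hz'' : (z, h) ∈ K := interior_subset hz'
    exact hz''

lemma h0Hts_image (K : Set (ℂ × ℝ)) : Hts K = Prod.snd '' interior K := by
  ext h
  constructor
  · rintro ⟨z, hz⟩
    exact ⟨(z, h), hz, rfl⟩
  · rintro ⟨⟨z, h'⟩, hz, rfl⟩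
    exact ⟨z, hz⟩

lemma h0closure_interior {K : Set (ℂ × ℝ)} (hK : Body3 K) : closure (interior K) = K := by
  rw [hK.conv.closure_interior_eq_closure_of_nonempty_interior hK.ne, hK.cpt.isClosed.closure_eq]

theorem Hts_eq {K : Set (ℂ × ℝ)} (hK : Body3 K) :
    ∃ a b : ℝ, a < b ∧ Hts K = Ioo a b ∧ (∀ h, (sec K h).Nonempty → h ∈ Icc a b) := by
  have hop : IsOpen (Hts K) := by
    rw [h0Hts_image]
    exact isOpenMap_snd _ isOpen_interior
  have hconv : Convex ℝ (Hts K) := by
    rw [h0Hts_image]
    exact hK.conv.interior.linear_image (LinearMap.snd ℝ ℂ ℝ)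
  have hord : OrdConnected (Hts K) := hconv.ordConnected
  have hne : (Hts K).Nonempty := by
    rw [h0Hts_image]
    exact hK.ne.image _
  have hbd : Bornology.IsBounded (Hts K) := by
    rw [h0Hts_image]
    refine (hK.cpt.image continuous_snd).isBounded.subset ?_
    exact image_mono interior_subset
  have hbb := hbd.bddBelow
  have hba := hbd.bddAbove
  have hEq : Hts K = Ioo (sInf (Hts K)) (sSup (Hts K)) := by
    apply Subset.antisymm
    · intro x hx
      obtain ⟨ε, hε, hb⟩ := Metric.isOpen_iff.1 hop x hx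
      have h1 : x - ε / 2 ∈ Hts K := hb (by
        rw [Metric.mem_ball, Real.dist_eq]
        have : x - ε / 2 - x = -(ε / 2) := by ring
        rw [this, abs_neg, abs_of_pos (by positivity)]
        linarith)
      have h2 : x + ε / 2 ∈ Hts K := hb (by
        rw [Metric.mem_ball, Real.dist_eq]
        have : x + ε / 2 - x = (ε / 2) := by ring
        rw [this, abs_of_pos (by positivity)]
        linarith)
      constructor
      · have := csInf_le hbb h1
        linarith
      · have := le_csSup hba h2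
        linarith
    · intro x hx
      obtain ⟨y, hy, hyx⟩ := exists_lt_of_csInf_lt hne hx.1
      obtain ⟨y', hy', hyx'⟩ := exists_lt_of_lt_csSup hne hx.2
      exact hord.out hy hy' ⟨hyx.le, hyx'.le⟩
  refine ⟨sInf (Hts K), sSup (Hts K), ?_, hEq, ?_⟩
  · obtain ⟨x, hx⟩ := hne
    rw [hEq] at hx
    exact hx.1.trans hx.2
  · rintro h ⟨z, hz⟩
    have h1 : (z, h) ∈ closure (interior K) := by
      rw [h0closure_interior hK]; exact hz
    have h2 : h ∈ closure (Hts K) := by
      rw [h0Hts_image]
      exact image_closure_subset_closure_image continuous_snd ⟨(z, h), h1, rfl⟩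
    have h3 : closure (Hts K) ⊆ Icc (sInf (Hts K)) (sSup (Hts K)) := by
      refine closure_minimal ?_ isClosed_Icc
      intro x hx
      rw [hEq] at hx
      exact ⟨hx.1.le, hx.2.le⟩
    exact h3 h2

/-- bodies with the same X-rays in a horizontal direction have the same `Hts`. -/
theorem h0Hts_same_sub {K K' : Set (ℂ × ℝ)} (hK' : Body3 K') {φ : ℝ}
    (hX : ∀ h, SameX (sec K h) (sec K' h) φ) : Hts K ⊆ Hts K' := by
  rintro h ⟨z, hz⟩
  obtain ⟨a, b, hab, hH, hn⟩ := Hts_eq hK'
  have hcont : Continuous (fun t : ℝ => (z, t)) := by fun_prop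
  have h1 : ∀ᶠ t in 𝓝 h, (z, t) ∈ interior K :=
    hcont.continuousAt.eventually (isOpen_interior.mem_nhds hz)
  obtain ⟨ε, hε, hball⟩ := Metric.eventually_nhds_iff.1 h1
  have key : ∀ t : ℝ, dist t h < ε → t ∈ Icc a b := by
    intro t ht
    apply hn
    have h2 := hball ht
    have h3 : 0 < volume {s : ℝ | z + s * e φ ∈ sec K t} := by
      have hc : Continuous (fun s : ℝ => (z + (s : ℂ) * e φ, t)) := by fun_prop
      have h4 : IsOpen {s : ℝ | (z + (s : ℂ) * e φ, t) ∈ interior K} :=
        isOpen_interior.preimage hc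
      have h5 : (0 : ℝ) ∈ {s : ℝ | (z + (s : ℂ) * e φ, t) ∈ interior K} := by
        simpa using h2
      refine lt_of_lt_of_le (h4.measure_pos volume ⟨0, h5⟩) (measure_mono ?_)
      intro s hs
      have hs' : (z + (s : ℂ) * e φ, t) ∈ interior K := hs
      have hs'' : (z + (s : ℂ) * e φ, t) ∈ K := interior_subset hs'
      exact hs''
    rw [hX t z] at h3
    obtain ⟨s, hs⟩ := nonempty_of_measure_ne_zero h3.ne'
    exact ⟨_, hs⟩
  have h6 := key (h - ε / 2) (by
    rw [Real.dist_eq]
    have : h - ε / 2 - h = -(ε / 2) := by ring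
    rw [this, abs_neg, abs_of_pos (by positivity)]
    linarith)
  have h7 := key (h + ε / 2) (by
    rw [Real.dist_eq]
    have : h + ε / 2 - h = (ε / 2) := by ring
    rw [this, abs_of_pos (by positivity)]
    linarith)
  rw [hH]
  exact ⟨by linarith [h6.1], by linarith [h7.2]⟩

theorem Hts_same {K K' : Set (ℂ × ℝ)} (hK : Body3 K) (hK' : Body3 K') {φ : ℝ}
    (hX : ∀ h, SameX (sec K h) (sec K' h) φ) : Hts K' = Hts K :=
  Subset.antisymm (h0Hts_same_sub hK fun h p => (hX h p).symm) (h0Hts_same_sub hK' hX)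

theorem eq_of_sec_eq {K K' : Set (ℂ × ℝ)} (hK : Body3 K) (hK' : Body3 K')
    (hH : Hts K' = Hts K) (h : ∀ h ∈ Hts K, sec K' h = sec K h) : K' = K := by
  have h1 : interior K' = interior K := by
    ext ⟨z, t⟩
    constructor
    · intro hz
      have ht' : t ∈ Hts K' := ⟨z, hz⟩
      have ht : t ∈ Hts K := hH ▸ ht'
      have h2 : z ∈ interior (sec K' t) := by
        rw [interior_sec hK' ht']; exact hz
      rw [h t ht, interior_sec hK ht] at h2
      exact h2
    · intro hz
      have ht : t ∈ Hts K := ⟨z, hz⟩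
      have ht' : t ∈ Hts K' := hH.symm ▸ ht
      have h2 : z ∈ interior (sec K t) := by
        rw [interior_sec hK ht]; exact hz
      rw [← h t ht, interior_sec hK' ht'] at h2
      exact h2
  rw [← h0closure_interior hK', ← h0closure_interior hK, h1]

end Pool.Agent.H45.XR
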