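import Mathlib
import Pool.Agent.H45.XR.Defs
import Pool.Agent.H7.XR.A1
import Pool.Agent.H7.XR.A2

set_option autoImplicit false

open MeasureTheory Set Filter Topology
open scoped Real ENNReal

namespace Pool.Agent.H45.XR

lemma p1_mid {C : Set ℂ} (hC : Body C) {φ : ℝ} {p q r : ℂ} (hp : p ∈ C)
    (hr : r ∈ C) (h1 : tc φ p = tc φ q) (h2 : tc φ q = tc φ r) (h3 : yc φ p < yc φ q)
    (h4 : yc φ q < yc φ r) {z : ℂ} (hz : z ∈ interior C) (hzq : tc φ z = tc φ q) :
    q ∈ interior C := by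
  have e1 := eq_add_of_tc_eq h1
  have e2 := eq_add_of_tc_eq h2.symm
  refine A2.mid_interior hC (φ := φ) (s := yc φ r - yc φ q) (t := yc φ q - yc φ p)
    (sub_pos.2 h4) (sub_pos.2 h3) ?_ ?_ hz hzq
  · rw [← e2]; exact hr
  · have : q - ((yc φ q - yc φ p : ℝ) : ℂ) * e φ = p := by
      conv_rhs => rw [e1]
      push_cast
      ring
    rw [this]; exact hp

lemma p1_three {C : Set ℂ} (hC : Body C) {φ : ℝ} (hS : NoSeg C φ) {p q r : ℂ} (hp : p ∈ C)
    (hq : q ∈ C) (hr : r ∈ C) (hp' : p ∉ interior C) (hq' : q ∉ interior C)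
    (hr' : r ∉ interior C) (hpq : p ≠ q) (hqr : q ≠ r) (hpr : p ≠ r)
    (h1 : tc φ p = tc φ q) (h2 : tc φ q = tc φ r) : False := by
  obtain ⟨z, hz, hzp⟩ := hS p hp q hq hpq h1
  have ne : ∀ {x y : ℂ}, x ≠ y → tc φ x = tc φ y → yc φ x ≠ yc φ y := by
    intro x y hxy ht hy
    apply hxy
    have := eq_add_of_tc_eq ht
    rw [hy, sub_self] at this
    simpa using this
  have n1 := ne hpq h1
  have n2 := ne hqr h2
  have n3 := ne hpr (h1.trans h2)
  rcases lt_or_gt_of_ne n1 with a1 | a1 <;> rcases lt_or_gt_of_ne n2 with a2 | a2 <;>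
    rcases lt_or_gt_of_ne n3 with a3 | a3
  · exact hq' (p1_mid hC hp hr h1 h2 a1 a2 hz (hzp.trans h1))
  · exact absurd (a1.trans a2) (not_lt.2 a3.le)
  · exact hr' (p1_mid hC hp hq (h1.trans h2) h2.symm a3 a2 hz (hzp.trans (h1.trans h2)))
  · exact hp' (p1_mid hC hr hq (h1.trans h2).symm h1 a3 a1 hz hzp)
  · exact hp' (p1_mid hC hq hr h1.symm (h1.trans h2) a1 a3 hz hzp)
  · exact hr' (p1_mid hC hq hp h2 (h1.trans h2).symm a2 a3 hz (hzp.trans (h1.trans h2)))
  · exact absurd (a2.trans a1) (not_lt.2 a3.le)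
  · exact hq' (p1_mid hC hr hp h2.symm h1.symm a2 a1 hz (hzp.trans h1))

lemma p1_right {C : Set ℂ} (hC : Body C) {φ : ℝ} (hS : NoSeg C φ) {a t b : ℝ} (h1 : a < t)
    (h2 : t < b) (h3 : b < a + 2 * π) (hphi : Phi C a b = φ) :
    tc φ (pt C t) < tc φ (pt C a) := by
  obtain ⟨s, hs, hsb⟩ := Phi_spec hC (h1.trans h2) h3
  rw [hphi] at hsb
  have ho := A2.orient hC h1 h2 h3
  have hle : tc φ (pt C t) ≤ tc φ (pt C a) := by
    have r1 := congrArg Complex.re hsb
    have i1 := congrArg Complex.im hsb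
    simp only [pt, Complex.add_re, Complex.add_im, Complex.mul_re, Complex.mul_im,
      Complex.ofReal_re, Complex.ofReal_im, e_re, e_im, zero_mul, sub_zero, add_zero] at r1 i1
    have key : rad C a * rad C t * Real.sin (t - a) + rad C t * rad C b * Real.sin (b - t) +
      rad C b * rad C a * Real.sin (a - b) = s * (tc φ (pt C a) - tc φ (pt C t)) := by
      simp only [tc, pt, Complex.mul_re, Complex.mul_im,
        Complex.ofReal_re, Complex.ofReal_im, e_re, e_im, zero_mul, sub_zero, add_zero,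
        Real.sin_sub]
      linear_combination (rad C t * Real.cos t - rad C a * Real.cos a) * i1
        - (rad C t * Real.sin t - rad C a * Real.sin a) * r1
    rw [key] at ho
    by_contra hcon
    push Not at hcon
    have : s * (tc φ (pt C a) - tc φ (pt C t)) < 0 := mul_neg_of_pos_of_neg hs (by linarith)
    linarith
  refine lt_of_le_of_ne hle ?_
  intro heq
  refine p1_three hC hS (pt_mem hC t) (pt_mem hC a) (pt_mem hC b) (pt_notMem_interior hC t)
    (pt_notMem_interior hC a) (pt_notMem_interior hC b) (A2.pt_ne hC h1 (h2.trans h3)).symm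
    (A2.pt_ne hC (h1.trans h2) h3) (A2.pt_ne hC h2 (by linarith)) heq ?_
  rw [hsb, tc_add, tc_mul, tc_e_self, mul_zero, add_zero]

lemma p1_left {C : Set ℂ} (hC : Body C) {φ : ℝ} (hS : NoSeg C φ) {a t b : ℝ} (h1 : a < b)
    (h2 : b < t) (h3 : t < a + 2 * π) (hphi : Phi C a b = φ) :
    tc φ (pt C a) < tc φ (pt C t) := by
  have h := p1_right hC (A2.noSeg_add_pi hS) h2 h3 (by linarith)
    (by rw [Phi_shift hC h1 (h2.trans h3), hphi])
  have ht : ∀ z, tc (φ + π) z = - tc φ z := by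
    intro z
    unfold tc
    rw [Real.cos_add_pi, Real.sin_add_pi]
    ring
  rw [ht, ht] at h
  obtain ⟨s, hs, hsb⟩ := Phi_spec hC h1 (h2.trans h3)
  rw [hphi] at hsb
  have : tc φ (pt C b) = tc φ (pt C a) := by
    rw [hsb, tc_add, tc_mul, tc_e_self, mul_zero, add_zero]
  linarith

/-- P1 -/
theorem hex_of_type {C C' : Set ℂ} (hC : Body C) (hC' : Body C') {φ : Fin 3 → ℝ}
    (h01 : φ 0 < φ 1) (h12 : φ 1 < φ 2) (h20 : φ 2 < φ 0 + π) (hS : ∀ i, NoSeg C (φ i))
    {c : Fin 3 → ℤ} {v : ℤ → ℝ}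
    (hT : Typ 6 c) (hg : gc 6 c = 2) (hv : StrictMono v) (hp : ∀ x, v (x + 6) = v x + 2 * π)
    (hE : ∀ x, v x ∈ EE C C')
    (hr : ∀ i x y, x + y = c i → x < y → y < x + 6 → Phi C (v x) (v y) = φ i)
    (hl : ∀ i x, (2 * x = c i ∨ 2 * x = c i + 6) → Lone C C' (φ i) (pt C (v x))) :
    ∃ p : Fin 6 → ℂ, HexPair C C' φ p := by
  -- arithmetic of the type
  obtain ⟨m, hm⟩ := hT.g2 hg
  have hg1 : (2 : ℤ) ∣ c 1 - c 0 := by
    have h1 : gc 6 c ∣ Int.gcd (c 1 - c 0) (c 2 - c 0) := by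
      unfold gc
      exact_mod_cast Int.gcd_dvd_left (Int.gcd (c 1 - c 0) (c 2 - c 0) : ℤ) ((6 : ℕ) : ℤ)
    rw [hg] at h1
    have h2 : ((Int.gcd (c 1 - c 0) (c 2 - c 0) : ℕ) : ℤ) ∣ c 1 - c 0 := Int.gcd_dvd_left _ _
    exact (by exact_mod_cast h1 : (2 : ℤ) ∣ (Int.gcd (c 1 - c 0) (c 2 - c 0) : ℕ)).trans h2
  have hg2 : (2 : ℤ) ∣ c 2 - c 0 := by
    have h1 : gc 6 c ∣ Int.gcd (c 1 - c 0) (c 2 - c 0) := by
      unfold gc
      exact_mod_cast Int.gcd_dvd_left (Int.gcd (c 1 - c 0) (c 2 - c 0) : ℤ) ((6 : ℕ) : ℤ)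
    rw [hg] at h1
    have h2 : ((Int.gcd (c 1 - c 0) (c 2 - c 0) : ℕ) : ℤ) ∣ c 2 - c 0 := Int.gcd_dvd_right _ _
    exact (by exact_mod_cast h1 : (2 : ℤ) ∣ (Int.gcd (c 1 - c 0) (c 2 - c 0) : ℕ)).trans h2
  have t1 := hT.h01
  have t2 := hT.h12
  have t3 := hT.h20
  have hc0 : c 0 = 2 * m := by omega
  have hc1 : c 1 = 2 * m + 2 := by push_cast at t3; omega
  have hc2 : c 2 = 2 * m + 4 := by push_cast at t3; omega
  -- notation
  set P : ℤ → ℂ := fun z => pt C (v z) with hP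
  have hPper : ∀ z, P (z + 6) = P z := by
    intro z
    simp only [hP]
    rw [hp, pt_periodic]
  have hspec : ∀ i x y, x + y = c i → x < y → y < x + 6 → ∃ s : ℝ, 0 < s ∧
      P y = P x + s * e (φ i) := by
    intro i x y h1 h2 h3
    obtain ⟨s, hs, h⟩ := Phi_spec hC (hv h2) (by rw [← hp]; exact hv h3)
    rw [hr i x y h1 h2 h3] at h
    exact ⟨s, hs, h⟩
  have hright : ∀ i x y z, x + y = c i → x < z → z < y → y < x + 6 →
      tc (φ i) (P z) < tc (φ i) (P x) := by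
    intro i x y z h1 h2 h3 h4
    exact p1_right hC (hS i) (hv h2) (hv h3) (by rw [← hp]; exact hv h4)
      (hr i x y h1 (h2.trans h3) h4)
  have hleft : ∀ i x y z, x + y = c i → x < y → y < z → z < x + 6 →
      tc (φ i) (P x) < tc (φ i) (P z) := by
    intro i x y z h1 h2 h3 h4
    exact p1_left hC (hS i) (hv h2) (hv h3) (by rw [← hp]; exact hv h4)
      (hr i x y h1 h2 (h3.trans h4))
  have htc : ∀ i x y, x + y = c i → x < y → y < x + 6 → tc (φ i) (P y) = tc (φ i) (P x) := by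
    intro i x y h1 h2 h3
    obtain ⟨s, -, h⟩ := hspec i x y h1 h2 h3
    rw [h, tc_add, tc_mul, tc_e_self, mul_zero, add_zero]
  have q4 : P (m + 4) = P (m - 2) := by
    rw [← hPper (m - 2)]; congr 1; ring
  have q5 : P (m + 5) = P (m - 1) := by
    rw [← hPper (m - 1)]; congr 1; ring
  refine ⟨fun x => P (m + ((x : ℕ) : ℤ)), ?_⟩
  have e0 : P (m + (((0 : Fin 6) : ℕ) : ℤ)) = P m := by simp
  have e1 : P (m + (((1 : Fin 6) : ℕ) : ℤ)) = P (m + 1) := rfl
  have e2 : P (m + (((2 : Fin 6) : ℕ) : ℤ)) = P (m + 2) := rfl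
  have e3 : P (m + (((3 : Fin 6) : ℕ) : ℤ)) = P (m + 3) := rfl
  have e4 : P (m + (((4 : Fin 6) : ℕ) : ℤ)) = P (m + 4) := rfl
  have e5 : P (m + (((5 : Fin 6) : ℕ) : ℤ)) = P (m + 5) := rfl
  refine ⟨⟨?_, ?_, ?_, ?_, ?_, ?_, ?_, ?_, ?_, ?_, ?_⟩, ?_, ?_, ?_, ?_⟩
  · intro x; exact pt_mem hC _
  · intro x; exact pt_notMem_interior hC _
  · simp only [e1, e5, q5]
    exact hspec 0 (m - 1) (m + 1) (by omega) (by omega) (by omega)
  · simp only [e2, e4, q4]
    exact hspec 0 (m - 2) (m + 2) (by omega) (by omega) (by omega)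
  · simp only [e2, e0]
    exact hspec 1 m (m + 2) (by omega) (by omega) (by omega)
  · simp only [e3, e5, q5]
    exact hspec 1 (m - 1) (m + 3) (by omega) (by omega) (by omega)
  · simp only [e3, e1]
    exact hspec 2 (m + 1) (m + 3) (by omega) (by omega) (by omega)
  · simp only [e4, e0]
    exact hspec 2 m (m + 4) (by omega) (by omega) (by omega)
  · simp only [e0, e1, e2, e3]
    have a1 := hright 0 (m - 1) (m + 1) m (by omega) (by omega) (by omega) (by omega)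
    have a2 := htc 0 (m - 1) (m + 1) (by omega) (by omega) (by omega)
    have a3 := hright 0 (m - 2) (m + 2) (m + 1) (by omega) (by omega) (by omega) (by omega)
    have a4 := htc 0 (m - 2) (m + 2) (by omega) (by omega) (by omega)
    have a5 := hleft 0 (m - 2) (m + 2) (m + 3) (by omega) (by omega) (by omega) (by omega)
    exact ⟨by linarith, by linarith, by linarith⟩
  · simp only [e0, e1, e4, e5]
    have a1 := hright 1 m (m + 2) (m + 1) (by omega) (by omega) (by omega) (by omega)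
    have a3 := hright 1 (m - 1) (m + 3) m (by omega) (by omega) (by omega) (by omega)
    have a5 := hleft 1 (m - 1) (m + 3) (m + 4) (by omega) (by omega) (by omega) (by omega)
    rw [← q5] at a3 a5
    exact ⟨a1, a3, a5⟩
  · simp only [e0, e1, e2, e5]
    have a1 := hright 2 (m + 1) (m + 3) (m + 2) (by omega) (by omega) (by omega) (by omega)
    have a3 := hright 2 m (m + 4) (m + 1) (by omega) (by omega) (by omega) (by omega)
    have a5 := hleft 2 m (m + 4) (m + 5) (by omega) (by omega) (by omega) (by omega)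
    exact ⟨a1, a3, a5⟩
  · intro x
    have h1 : rad C (v (m + ((x : ℕ) : ℤ))) = rad C' (v (m + ((x : ℕ) : ℤ))) := hE _
    have h2 : P (m + ((x : ℕ) : ℤ)) = pt C' (v (m + ((x : ℕ) : ℤ))) := by
      simp only [hP, pt]
      rw [h1]
    show P (m + ((x : ℕ) : ℤ)) ∈ C'
    rw [h2]
    exact pt_mem hC' _
  · simp only [e0, e3]
    exact ⟨hl 0 m (Or.inl (by omega)), hl 0 (m + 3) (Or.inr (by omega))⟩
  · simp only [e1, e4]
    exact ⟨hl 1 (m + 1) (Or.inl (by omega)), hl 1 (m + 4) (Or.inr (by omega))⟩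
  · simp only [e2, e5]
    exact ⟨hl 2 (m + 2) (Or.inl (by omega)), hl 2 (m + 5) (Or.inr (by omega))⟩

end Pool.Agent.H45.XR
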